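import Pool.Agent.H224R2.Mah.Defs

/-!
D1: for fixed imaginary part the real map is injective with the right derivative (helper57).
-/

namespace Pool.Agent.H224R2.Mah

open MeasureTheory Set Filter Topology
open scoped ENNReal RealInnerProductSpace

section
variable {n : ℕ} {ι : Type} [Fintype ι]

/-- the linear functional `x ↦ ∑ a_k x_k` -/
noncomputable def D1_lf (a : Fin n → ℝ) : (Fin n → ℝ) →L[ℝ] ℝ :=
  ∑ k, a k • ContinuousLinearMap.proj (R := ℝ) (φ := fun _ : Fin n => ℝ) k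

theorem D1_lf_apply (a x : Fin n → ℝ) : D1_lf a x = ∑ k, a k * x k := by
  simp [D1_lf]

theorem D1_uu (a x y : Fin n → ℝ) :
    uu a (fun k => (⟨x k, y k⟩ : ℂ)) = (⟨D1_lf a x, ∑ k, a k * y k⟩ : ℂ) := by
  unfold uu
  rw [D1_lf_apply]
  apply Complex.ext
  · simp [Complex.re_sum]
  · simp [Complex.im_sum]

/-- the real map -/
noncomputable def D1_v (S : ℕ → ℂ → ℝ) (a : ι → Fin n → ℝ) (m : ι → ℕ) (y x : Fin n → ℝ) :
    Fin n → ℝ :=
  ∑ j, (Real.sign (D1_lf (a j) x) *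
    S (m j) (⟨D1_lf (a j) x, ∑ k, a j k * y k⟩ : ℂ)) • a j

theorem D1_emb (a : Fin n → ℝ) (y : Fin n → ℝ) (x : Fin n → ℝ) :
    HasFDerivAt (fun x : Fin n → ℝ => (⟨D1_lf a x, ∑ k, a k * y k⟩ : ℂ))
      ((D1_lf a).smulRight (1 : ℂ)) x := by
  have h : (fun x : Fin n → ℝ => (⟨D1_lf a x, ∑ k, a k * y k⟩ : ℂ)) =
      fun x => (D1_lf a).smulRight (1 : ℂ) x + (⟨0, ∑ k, a k * y k⟩ : ℂ) := by
    funext x
    apply Complex.ext <;> simp
  rw [h]
  exact ((D1_lf a).smulRight (1 : ℂ)).hasFDerivAt.add_const _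

theorem D1_cont (a : Fin n → ℝ) (y : Fin n → ℝ) :
    Continuous (fun x : Fin n → ℝ => (⟨D1_lf a x, ∑ k, a k * y k⟩ : ℂ)) :=
  continuous_iff_continuousAt.2 fun x => (D1_emb a y x).continuousAt

theorem D1_sign {f : (Fin n → ℝ) → ℝ} (hf : Continuous f) {x : Fin n → ℝ} (h : f x ≠ 0) :
    (fun x' => Real.sign (f x')) =ᶠ[𝓝 x] fun _ => Real.sign (f x) := by
  rcases lt_or_gt_of_ne h with h1 | h1
  · have h2 : ∀ᶠ x' in 𝓝 x, f x' < 0 := hf.continuousAt.eventually_lt continuousAt_const h1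
    filter_upwards [h2] with x' hx'
    rw [Real.sign_of_neg hx', Real.sign_of_neg h1]
  · have h2 : ∀ᶠ x' in 𝓝 x, 0 < f x' := continuousAt_const.eventually_lt hf.continuousAt h1
    filter_upwards [h2] with x' hx'
    rw [Real.sign_of_pos hx', Real.sign_of_pos h1]

theorem D1_deriv {P : Set ℂ} {S : ℕ → ℂ → ℝ} (hD : Dom P S) (a : ι → Fin n → ℝ) (m : ι → ℕ)
    (hm : ∀ j, 2 ≤ m j) (y x : Fin n → ℝ)
    (hx : ∀ j, (⟨D1_lf (a j) x, ∑ k, a j k * y k⟩ : ℂ) ∈ P)
    (hx0 : ∀ j, a j ≠ 0 → D1_lf (a j) x ≠ 0) :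
    HasFDerivAt (D1_v S a m y) (LinearMap.toContinuousLinearMap (Matrix.toLin'
      (mat (fun j => |dx (S (m j)) (⟨D1_lf (a j) x, ∑ k, a j k * y k⟩ : ℂ)|) a))) x := by
  have h1 : ∀ j, HasFDerivAt (fun x : Fin n → ℝ => (Real.sign (D1_lf (a j) x) *
      S (m j) (⟨D1_lf (a j) x, ∑ k, a j k * y k⟩ : ℂ)) • a j)
      ((|dx (S (m j)) (⟨D1_lf (a j) x, ∑ k, a j k * y k⟩ : ℂ)| • D1_lf (a j)).smulRight (a j))
      x := by
    intro j
    by_cases h0 : a j = 0
    · have e1 : (fun x : Fin n → ℝ => (Real.sign (D1_lf (a j) x) *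
        S (m j) (⟨D1_lf (a j) x, ∑ k, a j k * y k⟩ : ℂ)) • a j) = fun _ => 0 := by
        funext x
        rw [h0, smul_zero]
      have e2 : (|dx (S (m j)) (⟨D1_lf (a j) x, ∑ k, a j k * y k⟩ : ℂ)| •
          D1_lf (a j)).smulRight (a j) = 0 := by
        ext1 w
        simp [h0]
      rw [e1, e2]
      exact hasFDerivAt_const _ _
    · have hS : HasFDerivAt (S (m j)) (fderiv ℝ (S (m j))
          (⟨D1_lf (a j) x, ∑ k, a j k * y k⟩ : ℂ))
          (⟨D1_lf (a j) x, ∑ k, a j k * y k⟩ : ℂ) :=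
        (((hD.psh (m j) (hm j)).smooth.contDiffAt (hD.isOpen.mem_nhds (hx j))).differentiableAt
          (by norm_num)).hasFDerivAt
      have hcomp := hS.comp x (D1_emb (a j) y x)
      have hs := D1_sign (D1_lf (a j)).continuous (hx0 j h0)
      have hprod : HasFDerivAt (fun x : Fin n → ℝ => Real.sign (D1_lf (a j) x) *
          S (m j) (⟨D1_lf (a j) x, ∑ k, a j k * y k⟩ : ℂ))
          (|dx (S (m j)) (⟨D1_lf (a j) x, ∑ k, a j k * y k⟩ : ℂ)| • D1_lf (a j)) x := by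
        have h2 : HasFDerivAt (fun x' : Fin n → ℝ => Real.sign (D1_lf (a j) x) *
          S (m j) (⟨D1_lf (a j) x', ∑ k, a j k * y k⟩ : ℂ))
          (Real.sign (D1_lf (a j) x) • ((fderiv ℝ (S (m j))
            (⟨D1_lf (a j) x, ∑ k, a j k * y k⟩ : ℂ)).comp
            ((D1_lf (a j)).smulRight (1 : ℂ)))) x := hcomp.const_mul _
        have h3 : Real.sign (D1_lf (a j) x) • ((fderiv ℝ (S (m j))
            (⟨D1_lf (a j) x, ∑ k, a j k * y k⟩ : ℂ)).comp
            ((D1_lf (a j)).smulRight (1 : ℂ))) =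
            |dx (S (m j)) (⟨D1_lf (a j) x, ∑ k, a j k * y k⟩ : ℂ)| • D1_lf (a j) := by
          ext1 w
          have h4 := hD.dx_abs (m j) (hm j) _ (hx j)
          rw [h4]
          simp only [_root_.smul_apply, ContinuousLinearMap.comp_apply,
            ContinuousLinearMap.smulRight_apply, smul_eq_mul, map_smul]
          unfold dx
          ring
        rw [h3] at h2
        refine h2.congr_of_eventuallyEq ?_
        filter_upwards [hs] with x' hx'
        rw [hx']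
      exact hprod.smul_const (a j)
  have h2 := HasFDerivAt.fun_sum (u := Finset.univ) (fun j _ => h1 j)
  have h3 : LinearMap.toContinuousLinearMap (Matrix.toLin'
      (mat (fun j => |dx (S (m j)) (⟨D1_lf (a j) x, ∑ k, a j k * y k⟩ : ℂ)|) a)) =
      ∑ j, (|dx (S (m j)) (⟨D1_lf (a j) x, ∑ k, a j k * y k⟩ : ℂ)| •
        D1_lf (a j)).smulRight (a j) := by
    ext1 w
    simp only [LinearMap.coe_toContinuousLinearMap', Matrix.toLin'_apply, mat,
      Matrix.sum_mulVec, Matrix.smul_mulVec, Matrix.vecMulVec_mulVec,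
      _root_.sum_apply, ContinuousLinearMap.smulRight_apply,
      _root_.smul_apply, D1_lf_apply, dotProduct]
    apply Finset.sum_congr rfl
    intro j _
    rw [smul_eq_mul, mul_smul, op_smul_eq_smul]
  rw [h3]
  exact h2

theorem D1_inj {P : Set ℂ} {S : ℕ → ℂ → ℝ} (hD : Dom P S) (a : ι → Fin n → ℝ)
    (hspan : Submodule.span ℝ (Set.range a) = ⊤) (m : ι → ℕ) (hm : ∀ j, 2 ≤ m j)
    (y x x' : Fin n → ℝ) (hx : ∀ j, (⟨D1_lf (a j) x, ∑ k, a j k * y k⟩ : ℂ) ∈ P)
    (hx' : ∀ j, (⟨D1_lf (a j) x', ∑ k, a j k * y k⟩ : ℂ) ∈ P)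
    (h : D1_v S a m y x = D1_v S a m y x') : x = x' := by
  have hterm : ∀ j, D1_lf (a j) x ≠ D1_lf (a j) x' →
      0 < (Real.sign (D1_lf (a j) x) * S (m j) (⟨D1_lf (a j) x, ∑ k, a j k * y k⟩ : ℂ) -
        Real.sign (D1_lf (a j) x') * S (m j) (⟨D1_lf (a j) x', ∑ k, a j k * y k⟩ : ℂ)) *
        (D1_lf (a j) x - D1_lf (a j) x') := by
    intro j hne
    rcases lt_or_gt_of_ne hne with h1 | h1
    · have h2 := hD.mono (m j) (hm j) _ (hx j) _ (hx' j) rfl h1
      exact mul_pos_of_neg_of_neg (by simpa using h2) (by linarith)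
    · have h2 := hD.mono (m j) (hm j) _ (hx' j) _ (hx j) rfl h1
      exact mul_pos (by simpa using h2) (by linarith)
  have hterm0 : ∀ j, 0 ≤ (Real.sign (D1_lf (a j) x) *
        S (m j) (⟨D1_lf (a j) x, ∑ k, a j k * y k⟩ : ℂ) -
        Real.sign (D1_lf (a j) x') * S (m j) (⟨D1_lf (a j) x', ∑ k, a j k * y k⟩ : ℂ)) *
        (D1_lf (a j) x - D1_lf (a j) x') := by
    intro j
    by_cases hne : D1_lf (a j) x = D1_lf (a j) x'
    · rw [hne]
      simp
    · exact (hterm j hne).le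
  have hsum : ∑ j, (Real.sign (D1_lf (a j) x) *
        S (m j) (⟨D1_lf (a j) x, ∑ k, a j k * y k⟩ : ℂ) -
        Real.sign (D1_lf (a j) x') * S (m j) (⟨D1_lf (a j) x', ∑ k, a j k * y k⟩ : ℂ)) *
        (D1_lf (a j) x - D1_lf (a j) x') = 0 := by
    have h1 : (D1_v S a m y x - D1_v S a m y x') ⬝ᵥ (x - x') = 0 := by
      rw [h, sub_self, zero_dotProduct]
    rw [← h1]
    unfold D1_v
    rw [← Finset.sum_sub_distrib, sum_dotProduct]
    apply Finset.sum_congr rfl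
    intro j _
    have e1 : a j ⬝ᵥ (x - x') = D1_lf (a j) (x - x') := by
      rw [D1_lf_apply]
      rfl
    rw [← sub_smul, smul_dotProduct, smul_eq_mul, e1, ← map_sub]
  have heq : ∀ j, D1_lf (a j) x = D1_lf (a j) x' := by
    intro j
    by_contra hne
    have h1 := (Finset.sum_eq_zero_iff_of_nonneg (fun j _ => hterm0 j)).1 hsum j
      (Finset.mem_univ j)
    exact absurd h1 (hterm j hne).ne'
  have hall : ∀ w : Fin n → ℝ, D1_lf w (x - x') = 0 := by
    intro w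
    have hw : w ∈ Submodule.span ℝ (Set.range a) := by rw [hspan]; trivial
    induction hw using Submodule.span_induction with
    | mem w hw =>
      obtain ⟨j, rfl⟩ := hw
      rw [map_sub, heq j, sub_self]
    | zero => simp [D1_lf_apply]
    | add u v _ _ h1 h2 =>
      rw [D1_lf_apply] at h1 h2 ⊢
      simp only [Pi.add_apply, add_mul, Finset.sum_add_distrib, h1, h2, add_zero]
    | smul c u _ h1 =>
      rw [D1_lf_apply] at h1 ⊢
      simp only [Pi.smul_apply, smul_eq_mul, mul_assoc, ← Finset.mul_sum, h1, mul_zero]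
  have h1 := hall (x - x')
  rw [D1_lf_apply] at h1
  have h2 : ∀ k, (x - x') k = 0 := by
    intro k
    have := (Finset.sum_eq_zero_iff_of_nonneg (fun k _ => mul_self_nonneg ((x - x') k))).1 h1 k
      (Finset.mem_univ k)
    exact mul_self_eq_zero.1 this
  funext k
  have := h2 k
  simp only [Pi.sub_apply] at this
  linarith

theorem D1_mem {P : Set ℂ} {S : ℕ → ℂ → ℝ} (hD : Dom P S) (a : ι → Fin n → ℝ)
    (L : Set (Fin n → ℝ)) (hL : Convex ℝ L) (hL0 : L.Nonempty)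
    (hLs : ∀ v ∈ L, -v ∈ L) (haL : ∀ j, a j ∈ L) (m : ι → ℕ) (hm : ∀ j, 2 ≤ m j)
    (y x : Fin n → ℝ) (hx : ∀ j, (⟨D1_lf (a j) x, ∑ k, a j k * y k⟩ : ℂ) ∈ P)
    (h1 : ∑ j, S (m j) (⟨D1_lf (a j) x, ∑ k, a j k * y k⟩ : ℂ) < 1) :
    D1_v S a m y x ∈ L := by
  have hS0 : ∀ j, 0 ≤ S (m j) (⟨D1_lf (a j) x, ∑ k, a j k * y k⟩ : ℂ) :=
    fun j => (hD.psh (m j) (hm j)).nonneg _ (hx j)
  have hzero : (0 : Fin n → ℝ) ∈ L := by
    obtain ⟨v, hv⟩ := hL0
    have h := hL hv (hLs v hv) (by norm_num : (0:ℝ) ≤ 1/2) (by norm_num : (0:ℝ) ≤ 1/2)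
      (by norm_num)
    simpa using h
  have hsg : ∀ j, Real.sign (D1_lf (a j) x) • a j ∈ L := by
    intro j
    rcases Real.sign_apply_eq (D1_lf (a j) x) with h | h | h
    · rw [h, neg_one_smul]
      exact hLs _ (haL j)
    · rw [h, zero_smul]
      exact hzero
    · rw [h, one_smul]
      exact haL j
  have h2 := hL.sum_mem (t := (Finset.univ : Finset (Option ι)))
    (w := fun o => match o with
      | none => 1 - ∑ j, S (m j) (⟨D1_lf (a j) x, ∑ k, a j k * y k⟩ : ℂ)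
      | some j => S (m j) (⟨D1_lf (a j) x, ∑ k, a j k * y k⟩ : ℂ))
    (z := fun o => match o with
      | none => 0
      | some j => Real.sign (D1_lf (a j) x) • a j) ?_ ?_ ?_
  · rw [Fintype.sum_option] at h2
    simp only [smul_zero, zero_add, smul_smul] at h2
    unfold D1_v
    simpa only [mul_comm] using h2
  · rintro (_ | j) _
    · simpa using h1.le
    · exact hS0 j
  · rw [Fintype.sum_option]
    simp
  · rintro (_ | j) _
    · exact hzero
    · exact hsg j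

/-- D1. For fixed imaginary part the real map is injective with the right derivative, hence a
volume bound (change of variables formula). -/
theorem D1_slice {P : Set ℂ} {S : ℕ → ℂ → ℝ} (hD : Dom P S) (a : ι → Fin n → ℝ)
    (hspan : Submodule.span ℝ (Set.range a) = ⊤) (L : Set (Fin n → ℝ)) (hL : Convex ℝ L)
    (hL0 : L.Nonempty)
    (hLs : ∀ v ∈ L, -v ∈ L) (haL : ∀ j, a j ∈ L) (m : ι → ℕ) (hm : ∀ j, 2 ≤ m j) (y : Fin n → ℝ) :
    ∫⁻ x in {x : Fin n → ℝ | (fun k => (⟨x k, y k⟩ : ℂ)) ∈ Om P a ∧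
        GG (fun j => S (m j)) a (fun k => (⟨x k, y k⟩ : ℂ)) < 1},
      ENNReal.ofReal (MM (fun j u => |dx (S (m j)) u|) a (fun k => (⟨x k, y k⟩ : ℂ))).det ≤
      volume L := by
  classical
  set R : Set (Fin n → ℝ) := {x : Fin n → ℝ | (fun k => (⟨x k, y k⟩ : ℂ)) ∈ Om P a ∧
        GG (fun j => S (m j)) a (fun k => (⟨x k, y k⟩ : ℂ)) < 1} with hR
  have hRmem : ∀ x, x ∈ R ↔ (∀ j, (⟨D1_lf (a j) x, ∑ k, a j k * y k⟩ : ℂ) ∈ P) ∧
      ∑ j, S (m j) (⟨D1_lf (a j) x, ∑ k, a j k * y k⟩ : ℂ) < 1 := by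
    intro x
    simp only [hR, mem_ofPred_eq, Om, GG, D1_uu]
  set N : Set (Fin n → ℝ) := {x | ∀ j, a j ≠ 0 → D1_lf (a j) x ≠ 0} with hN
  have hNopen : IsOpen N := by
    have : N = ⋂ j : ι, {x | a j ≠ 0 → D1_lf (a j) x ≠ 0} := by
      ext x
      simp [hN]
    rw [this]
    apply isOpen_iInter_of_finite
    intro j
    by_cases h0 : a j = 0
    · have : {x | a j ≠ 0 → D1_lf (a j) x ≠ 0} = univ := by
        ext x
        simp [h0]
      rw [this]
      exact isOpen_univ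
    · have : {x | a j ≠ 0 → D1_lf (a j) x ≠ 0} = (D1_lf (a j)) ⁻¹' {0}ᶜ := by
        ext x
        simp [h0]
      rw [this]
      exact isOpen_compl_singleton.preimage (D1_lf (a j)).continuous
  have hNnull : volume Nᶜ = 0 := by
    have h1 : Nᶜ ⊆ ⋃ j : ι, {x | a j ≠ 0 ∧ D1_lf (a j) x = 0} := by
      intro x hx
      simp only [hN, mem_compl_iff, mem_ofPred_eq, not_forall, not_not] at hx
      obtain ⟨j, h2, h3⟩ := hx
      exact mem_iUnion.2 ⟨j, h2, h3⟩
    refine measure_mono_null h1 ?_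
    rw [measure_iUnion_null_iff]
    intro j
    by_cases h0 : a j = 0
    · simp [h0]
    · refine measure_mono_null (t := ((LinearMap.ker (D1_lf (a j) : (Fin n → ℝ) →ₗ[ℝ] ℝ) :
        Submodule ℝ (Fin n → ℝ)) : Set (Fin n → ℝ))) ?_ ?_
      · rintro x ⟨_, hx⟩
        exact hx
      · apply Measure.addHaar_submodule
        intro htop
        apply h0
        have h1 : a j ∈ LinearMap.ker (D1_lf (a j) : (Fin n → ℝ) →ₗ[ℝ] ℝ) := by
          rw [htop]; trivial
        have h2 : D1_lf (a j) (a j) = 0 := h1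
        rw [D1_lf_apply] at h2
        funext k
        have := (Finset.sum_eq_zero_iff_of_nonneg (fun k _ => mul_self_nonneg (a j k))).1 h2 k
          (Finset.mem_univ k)
        exact mul_self_eq_zero.1 this
  have hOopen : IsOpen {x : Fin n → ℝ | ∀ j, (⟨D1_lf (a j) x, ∑ k, a j k * y k⟩ : ℂ) ∈ P} := by
    have : {x : Fin n → ℝ | ∀ j, (⟨D1_lf (a j) x, ∑ k, a j k * y k⟩ : ℂ) ∈ P} =
        ⋂ j : ι, (fun x : Fin n → ℝ => (⟨D1_lf (a j) x, ∑ k, a j k * y k⟩ : ℂ)) ⁻¹' P := by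
      ext x
      simp
    rw [this]
    exact isOpen_iInter_of_finite fun j => hD.isOpen.preimage (D1_cont (a j) y)
  have hcont : ContinuousOn (fun x : Fin n → ℝ =>
      ∑ j, S (m j) (⟨D1_lf (a j) x, ∑ k, a j k * y k⟩ : ℂ))
      {x : Fin n → ℝ | ∀ j, (⟨D1_lf (a j) x, ∑ k, a j k * y k⟩ : ℂ) ∈ P} := by
    apply continuousOn_finsetSum
    intro j _
    exact (hD.psh (m j) (hm j)).smooth.continuousOn.comp (D1_cont (a j) y).continuousOn
      (fun x hx => hx j)
  have hRopen : IsOpen R := by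
    have : R = {x : Fin n → ℝ | ∀ j, (⟨D1_lf (a j) x, ∑ k, a j k * y k⟩ : ℂ) ∈ P} ∩
        (fun x : Fin n → ℝ =>
          ∑ j, S (m j) (⟨D1_lf (a j) x, ∑ k, a j k * y k⟩ : ℂ)) ⁻¹' (Iio 1) := by
      ext x
      rw [hRmem]
      rfl
    rw [this]
    exact hcont.isOpen_inter_preimage hOopen isOpen_Iio
  have hae : R =ᵐ[volume] (R ∩ N : Set (Fin n → ℝ)) := by
    have h1 : N =ᵐ[volume] (univ : Set (Fin n → ℝ)) := by
      rw [ae_eq_univ]
      exact hNnull
    have h2 := (Filter.EventuallyEq.refl (ae volume) R).inter h1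
    rw [inter_univ] at h2
    exact h2.symm
  rw [setLIntegral_congr hae]
  have hmeas : MeasurableSet (R ∩ N) := (hRopen.inter hNopen).measurableSet
  have hder : ∀ x ∈ R ∩ N, HasFDerivWithinAt (D1_v S a m y)
      (LinearMap.toContinuousLinearMap (Matrix.toLin'
      (mat (fun j => |dx (S (m j)) (⟨D1_lf (a j) x, ∑ k, a j k * y k⟩ : ℂ)|) a))) (R ∩ N) x :=
    fun x hx => (D1_deriv hD a m hm y x ((hRmem x).1 hx.1).1 hx.2).hasFDerivWithinAt
  have hinj : InjOn (D1_v S a m y) (R ∩ N) := fun x hx x' hx' h =>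
    D1_inj hD a hspan m hm y x x' ((hRmem x).1 hx.1).1 ((hRmem x').1 hx'.1).1 h
  have hchg := lintegral_abs_det_fderiv_eq_addHaar_image volume hmeas hder hinj
  calc ∫⁻ x in R ∩ N, ENNReal.ofReal (MM (fun j u => |dx (S (m j)) u|) a
        (fun k => (⟨x k, y k⟩ : ℂ))).det
      ≤ ∫⁻ x in R ∩ N, ENNReal.ofReal |(LinearMap.toContinuousLinearMap (Matrix.toLin'
      (mat (fun j => |dx (S (m j)) (⟨D1_lf (a j) x, ∑ k, a j k * y k⟩ : ℂ)|) a))).det| := by
        apply lintegral_mono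
        intro x
        apply ENNReal.ofReal_le_ofReal
        refine le_trans (le_of_eq ?_) (le_abs_self _)
        simp only [MM, D1_uu, ContinuousLinearMap.det, LinearMap.coe_toContinuousLinearMap,
          LinearMap.det_toLin']
    _ = volume (D1_v S a m y '' (R ∩ N)) := hchg
    _ ≤ volume L := by
        apply measure_mono
        rintro _ ⟨x, hx, rfl⟩
        obtain ⟨h1, h2⟩ := (hRmem x).1 hx.1
        exact D1_mem hD a L hL hL0 hLs haL m hm y x h1 h2

end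

end Pool.Agent.H224R2.Mah
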